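import Mathlib

/-!
# Correcting a distance preserving bijection so that it preserves the diameters
-/

namespace Pool.Agent.Q151.Ball

/-- A set with an ultrametric distance function `d` and a diameter function `δ`, with the properties
of the set of all balls of positive radius of an ultrametric space. -/
structure DD {α : Type*} (d : α → α → ℝ) (δ : α → ℝ) : Prop where
  self : ∀ a, d a a = 0
  symm : ∀ a b, d a b = d b a
  ultra : ∀ a b c, d a c ≤ max (d a b) (d b c)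
  nonneg : ∀ a, 0 ≤ δ a
  le : ∀ a b, b ≠ a → δ a ≤ d a b
  att : ∀ a, 0 < δ a → ∃ b, b ≠ a ∧ d a b = δ a
  comp : ∀ a c, c ≠ a → δ a = 0 → (∀ z, z ≠ a → d a c ≤ d a z) →
    ∃ w, w ≠ a ∧ d a w = d a c ∧ δ w = d a c ∧ 0 < δ w
  uniq : ∀ a b, a ≠ b → 0 < δ a → δ a = δ b → d a b ≠ δ a

section

variable {α β : Type*} {d : α → α → ℝ} {δ : α → ℝ} {d' : β → β → ℝ} {δ' : β → ℝ}

/-- the pairs to be swapped -/
def R (d : α → α → ℝ) (δ : α → ℝ) (δ' : β → ℝ) (Φ : α ≃ β) (w u : α) : Prop :=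
  w ≠ u ∧ 0 < δ w ∧ δ u = 0 ∧ d w u = δ w ∧ (∀ z, z ≠ u → d u w ≤ d u z) ∧
    δ' (Φ w) = 0 ∧ 0 < δ' (Φ u)

variable (h : DD d δ) (h' : DD d' δ') (Φ : α ≃ β) (hΦ : ∀ a b, d' (Φ a) (Φ b) = d a b)

include h h' hΦ in
/-- if both diameters are positive, they agree -/
lemma agree {w : α} (h1 : 0 < δ w) (h2 : 0 < δ' (Φ w)) : δ' (Φ w) = δ w := by
  obtain ⟨b, hb, hb1⟩ := h.att w h1
  obtain ⟨c, hc, hc1⟩ := h'.att (Φ w) h2
  apply le_antisymm
  · rw [← hb1, ← hΦ]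
    exact h'.le _ _ fun h => hb (Φ.injective h)
  · rw [← hc1, ← Φ.apply_symm_apply c, hΦ]
    refine h.le _ _ ?_
    rintro rfl
    exact hc (Φ.apply_symm_apply c).symm

include h h' hΦ in
lemma exists_right {w : α} (h1 : 0 < δ w) (h2 : δ' (Φ w) = 0) : ∃ u, R d δ δ' Φ w u := by
  obtain ⟨b, hb, hb1⟩ := h.att w h1
  obtain ⟨c, hc, hc1, hc2, hc3⟩ := h'.comp (Φ w) (Φ b) (fun h => hb (Φ.injective h)) h2 (by
    intro z hz
    rw [hΦ, hb1, ← Φ.apply_symm_apply z, hΦ]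
    refine h.le _ _ ?_
    rintro rfl
    exact hz (Φ.apply_symm_apply z).symm)
  rw [hΦ, hb1] at hc1 hc2
  have hcw : Φ.symm c ≠ w := by
    rintro rfl
    exact hc (Φ.apply_symm_apply c).symm
  have hdu : d w (Φ.symm c) = δ w := by
    rw [← hΦ, Φ.apply_symm_apply, hc1]
  have hδu : δ (Φ.symm c) = 0 := by
    by_contra hne
    have hpos : 0 < δ (Φ.symm c) := lt_of_le_of_ne (h.nonneg _) (Ne.symm hne)
    have h3 := agree h h' Φ hΦ hpos (by rwa [Φ.apply_symm_apply])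
    rw [Φ.apply_symm_apply, hc2] at h3
    exact h.uniq w (Φ.symm c) hcw.symm h1 h3 hdu
  refine ⟨Φ.symm c, hcw.symm, h1, hδu, hdu, ?_, h2, by rwa [Φ.apply_symm_apply]⟩
  intro z hz
  rw [h.symm, hdu, ← hc2, ← hΦ, Φ.apply_symm_apply]
  refine h'.le _ _ ?_
  intro hzc
  exact hz (by rw [← hzc, Φ.symm_apply_apply])

include h h' hΦ in
lemma exists_left {u : α} (h1 : δ u = 0) (h2 : 0 < δ' (Φ u)) : ∃ w, R d δ δ' Φ w u := by
  obtain ⟨c, hc, hc1⟩ := h'.att (Φ u) h2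
  have hmin : ∀ z, z ≠ u → d u (Φ.symm c) ≤ d u z := by
    intro z hz
    rw [← hΦ, Φ.apply_symm_apply, hc1, ← hΦ]
    exact h'.le _ _ fun h => hz (Φ.injective h)
  obtain ⟨w, hw, hw1, hw2, hw3⟩ := h.comp u (Φ.symm c) (by
    rintro rfl
    exact hc (Φ.apply_symm_apply c).symm) h1 hmin
  refine ⟨w, hw, hw3, h1, by rw [h.symm, hw1, hw2], by rw [hw1]; exact hmin, ?_, h2⟩
  by_contra hne
  have hpos : 0 < δ' (Φ w) := lt_of_le_of_ne (h'.nonneg _) (Ne.symm hne)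
  have h3 := agree h h' Φ hΦ hw3 hpos
  have h4 : δ' (Φ u) = δ w := by
    rw [← hc1, hw2, ← hΦ u, Φ.apply_symm_apply]
  refine h'.uniq (Φ u) (Φ w) (fun h => hw (Φ.injective h).symm) h2 (by rw [h4, h3]) ?_
  rw [hΦ, h4, hw1, hw2]

include h h' hΦ in
lemma right_unique {w u v : α} (h1 : R d δ δ' Φ w u) (h2 : R d δ δ' Φ w v) : u = v := by
  by_contra hne
  have hu : δ' (Φ u) = δ w := by
    obtain ⟨c, hc, hc1⟩ := h'.att (Φ u) h1.2.2.2.2.2.2
    apply le_antisymm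
    · rw [← h1.2.2.2.1, h.symm, ← hΦ]
      exact h'.le _ _ fun h => h1.1 (Φ.injective h)
    · rw [← h1.2.2.2.1, h.symm, ← hc1, ← Φ.apply_symm_apply c, hΦ]
      refine h1.2.2.2.2.1 _ ?_
      rintro rfl
      exact hc (Φ.apply_symm_apply c).symm
  have hv : δ' (Φ v) = δ w := by
    obtain ⟨c, hc, hc1⟩ := h'.att (Φ v) h2.2.2.2.2.2.2
    apply le_antisymm
    · rw [← h2.2.2.2.1, h.symm, ← hΦ]
      exact h'.le _ _ fun h => h2.1 (Φ.injective h)
    · rw [← h2.2.2.2.1, h.symm, ← hc1, ← Φ.apply_symm_apply c, hΦ]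
      refine h2.2.2.2.2.1 _ ?_
      rintro rfl
      exact hc (Φ.apply_symm_apply c).symm
  refine h'.uniq (Φ u) (Φ v) (fun h => hne (Φ.injective h)) h1.2.2.2.2.2.2 (by rw [hu, hv]) ?_
  rw [hΦ, hu]
  apply le_antisymm
  · refine (h.ultra u w v).trans ?_
    rw [h.symm u w, h1.2.2.2.1, h2.2.2.2.1, max_self]
  · rw [← h1.2.2.2.1, h.symm]
    exact h1.2.2.2.2.1 _ (Ne.symm hne)

include h in
lemma left_unique {w v u : α} (h1 : R d δ δ' Φ w u) (h2 : R d δ δ' Φ v u) : w = v := by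
  by_contra hne
  have h3 : δ w = δ v := by
    rw [← h1.2.2.2.1, ← h2.2.2.2.1, h.symm w, h.symm v]
    exact le_antisymm (h1.2.2.2.2.1 _ h2.1) (h2.2.2.2.2.1 _ h1.1)
  refine h.uniq w v hne h1.2.1 h3 (le_antisymm ?_ (h.le _ _ (Ne.symm hne)))
  refine (h.ultra w u v).trans ?_
  rw [h1.2.2.2.1, h.symm, h2.2.2.2.1, ← h3, max_self]

include h in
/-- swapped elements have the same distances to all other elements -/
lemma twins {w u z : α} (h1 : R d δ δ' Φ w u) (hw : z ≠ w) (hu : z ≠ u) : d w z = d u z := by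
  have h2 : d w u ≤ d w z := by rw [h1.2.2.2.1]; exact h.le _ _ hw
  have h3 : d w u ≤ d u z := by rw [h.symm]; exact h1.2.2.2.2.1 _ hu
  apply le_antisymm
  · exact (h.ultra w u z).trans (max_le h3 le_rfl)
  · refine (h.ultra u w z).trans (max_le ?_ le_rfl)
    rw [h.symm]; exact h2

/-- the two elements of a pair in either order -/
def P (d : α → α → ℝ) (δ : α → ℝ) (δ' : β → ℝ) (Φ : α ≃ β) (a b : α) : Prop :=
  R d δ δ' Φ a b ∨ R d δ δ' Φ b a

omit h in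
lemma P.symm {a b : α} (h1 : P d δ δ' Φ a b) : P d δ δ' Φ b a := Or.symm h1

include h h' hΦ in
lemma P.unique {a b c : α} (h1 : P d δ δ' Φ a b) (h2 : P d δ δ' Φ a c) : b = c := by
  rcases h1 with h1 | h1 <;> rcases h2 with h2 | h2
  · exact right_unique h h' Φ hΦ h1 h2
  · exact absurd h2.2.2.1 h1.2.1.ne'
  · exact absurd h1.2.2.1 h2.2.1.ne'
  · exact left_unique h Φ h1 h2

include h in
lemma P.twins {a b z : α} (h1 : P d δ δ' Φ a b) (ha : z ≠ a) (hb : z ≠ b) : d a z = d b z := by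
  rcases h1 with h1 | h1
  · exact Ball.twins h Φ h1 ha hb
  · exact (Ball.twins h Φ h1 hb ha).symm

open Classical in
/-- the involution -/
noncomputable def sw (d : α → α → ℝ) (δ : α → ℝ) (δ' : β → ℝ) (Φ : α ≃ β) (a : α) : α :=
  if h : ∃ b, P d δ δ' Φ a b then h.choose else a

lemma sw_spec (a : α) : (P d δ δ' Φ a (sw d δ δ' Φ a)) ∨
    (sw d δ δ' Φ a = a ∧ ∀ b, ¬ P d δ δ' Φ a b) := by
  unfold sw
  by_cases h : ∃ b, P d δ δ' Φ a b
  · rw [dif_pos h]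
    exact Or.inl h.choose_spec
  · rw [dif_neg h]
    exact Or.inr ⟨rfl, fun b hb => h ⟨b, hb⟩⟩

include h h' hΦ in
lemma sw_eq {a b : α} (hab : P d δ δ' Φ a b) : sw d δ δ' Φ a = b := by
  rcases sw_spec (d := d) (δ := δ) (δ' := δ') Φ a with h1 | h1
  · exact P.unique h h' Φ hΦ h1 hab
  · exact absurd hab (h1.2 b)

include h h' hΦ in
lemma sw_sw (a : α) : sw d δ δ' Φ (sw d δ δ' Φ a) = a := by
  rcases sw_spec (d := d) (δ := δ) (δ' := δ') Φ a with h1 | h1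
  · exact sw_eq h h' Φ hΦ h1.symm
  · rw [h1.1, h1.1]

include h h' hΦ in
lemma sw_dist (a b : α) : d (sw d δ δ' Φ a) (sw d δ δ' Φ b) = d a b := by
  by_cases hab : a = b
  · subst hab
    rw [h.self, h.self]
  rcases sw_spec (d := d) (δ := δ) (δ' := δ') Φ a with h1 | h1
  · by_cases hb : b = sw d δ δ' Φ a
    · rw [hb, sw_sw h h' Φ hΦ, h.symm]
    · have e1 : d a b = d (sw d δ δ' Φ a) b := P.twins h Φ h1 (Ne.symm hab) hb
      rcases sw_spec (d := d) (δ := δ) (δ' := δ') Φ b with h2 | h2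
      · have hne1 : sw d δ δ' Φ a ≠ sw d δ δ' Φ b := by
          intro he
          apply hab
          rw [← sw_sw h h' Φ hΦ a, he, sw_sw h h' Φ hΦ]
        have e2 : d b (sw d δ δ' Φ a) = d (sw d δ δ' Φ b) (sw d δ δ' Φ a) :=
          P.twins h Φ h2 (Ne.symm hb) hne1
        rw [h.symm (sw d δ δ' Φ a), ← e2, h.symm b, ← e1]
      · rw [h2.1, ← e1]
  · rw [h1.1]
    rcases sw_spec (d := d) (δ := δ) (δ' := δ') Φ b with h2 | h2
    · have ha : a ≠ sw d δ δ' Φ b := by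
        intro ha
        refine h1.2 b ?_
        rw [ha]
        exact h2.symm
      rw [h.symm a, ← P.twins h Φ h2 hab ha, h.symm]
    · rw [h2.1]

include h h' hΦ in
lemma delta_right {w u : α} (h1 : R d δ δ' Φ w u) : δ' (Φ u) = δ w := by
  obtain ⟨c, hc, hc1⟩ := h'.att (Φ u) h1.2.2.2.2.2.2
  apply le_antisymm
  · rw [← h1.2.2.2.1, h.symm, ← hΦ]
    exact h'.le _ _ fun h => h1.1 (Φ.injective h)
  · rw [← h1.2.2.2.1, h.symm, ← hc1, ← Φ.apply_symm_apply c, hΦ]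
    refine h1.2.2.2.2.1 _ ?_
    rintro rfl
    exact hc (Φ.apply_symm_apply c).symm

include h h' hΦ in
lemma sw_delta (a : α) : δ' (Φ (sw d δ δ' Φ a)) = δ a := by
  rcases sw_spec (d := d) (δ := δ) (δ' := δ') Φ a with h1 | h1
  · rcases h1 with h1 | h1
    · exact delta_right h h' Φ hΦ h1
    · rw [h1.2.2.1, h1.2.2.2.2.2.1]
  · rw [h1.1]
    rcases (h.nonneg a).lt_or_eq with h2 | h2
    · rcases (h'.nonneg (Φ a)).lt_or_eq with h3 | h3
      · exact agree h h' Φ hΦ h2 h3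
      · obtain ⟨u, hu⟩ := exists_right h h' Φ hΦ h2 h3.symm
        exact absurd (Or.inl hu) (h1.2 u)
    · rcases (h'.nonneg (Φ a)).lt_or_eq with h3 | h3
      · obtain ⟨w, hw⟩ := exists_left h h' Φ hΦ h2.symm h3
        exact absurd (Or.inr hw) (h1.2 w)
      · rw [← h2, ← h3]

include h h' hΦ in
/-- the corrected bijection -/
theorem exists_corrected : ∃ Ψ : α ≃ β, (∀ a b, d' (Ψ a) (Ψ b) = d a b) ∧ ∀ a, δ' (Ψ a) = δ a := by
  let S : α ≃ α := ⟨sw d δ δ' Φ, sw d δ δ' Φ, sw_sw h h' Φ hΦ, sw_sw h h' Φ hΦ⟩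
  refine ⟨S.trans Φ, fun a b => ?_, fun a => ?_⟩
  · change d' (Φ (sw d δ δ' Φ a)) (Φ (sw d δ δ' Φ b)) = d a b
    rw [hΦ, sw_dist h h' Φ hΦ]
  · exact sw_delta h h' Φ hΦ a

end

end Pool.Agent.Q151.Ball
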