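import Mathlib
import Pool.Agent.Q151.Ball.Swap

/-!
# The Hausdorff distance between closed balls of positive radius of an ultrametric space
-/

open Metric Set

namespace Pool.Agent.Q151.Ball

/-- The set of all closed balls of strictly positive radius of the metric space `X`. -/
def BallSpace (X : Type*) [MetricSpace X] : Type _ :=
  {A : Set X // ∃ c : X, ∃ r : ℝ, 0 < r ∧ A = closedBall c r}

/-- the Hausdorff distance of two balls -/
noncomputable def hd {X : Type*} [MetricSpace X] (A B : BallSpace X) : ℝ :=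
  hausdorffDist A.1 B.1

/-- the diameter of a ball -/
noncomputable def dm {X : Type*} [MetricSpace X] (A : BallSpace X) : ℝ := diam A.1

section

variable {X : Type*} [MetricSpace X] [IsUltrametricDist X]

omit [IsUltrametricDist X] in
lemma BallSpace.nonempty (A : BallSpace X) : A.1.Nonempty := by
  obtain ⟨_, c, r, hr, rfl⟩ := A
  exact ⟨c, mem_closedBall_self hr.le⟩

omit [IsUltrametricDist X] in
lemma BallSpace.bounded (A : BallSpace X) : Bornology.IsBounded A.1 := by
  obtain ⟨_, c, r, hr, rfl⟩ := A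
  exact isBounded_closedBall

/-- a ball of positive radius, with any of its points as centre -/
lemma BallSpace.radius (A : BallSpace X) : ∃ r : ℝ, 0 < r ∧ ∀ a ∈ A.1, A.1 = closedBall a r := by
  obtain ⟨_, c, r, hr, rfl⟩ := A
  exact ⟨r, hr, fun a ha => IsUltrametricDist.closedBall_eq_of_mem ha⟩

/-- the ball with centre `a` and radius `r` -/
def bl (a : X) {r : ℝ} (hr : 0 < r) : BallSpace X := ⟨closedBall a r, a, r, hr, rfl⟩

omit [IsUltrametricDist X] in
lemma fin (A B : BallSpace X) : hausdorffEDist A.1 B.1 ≠ ⊤ :=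
  hausdorffEDist_ne_top_of_nonempty_of_bounded A.nonempty B.nonempty A.bounded B.bounded

omit [IsUltrametricDist X] in
lemma hd_comm (A B : BallSpace X) : hd A B = hd B A := hausdorffDist_comm

omit [IsUltrametricDist X] in
lemma hd_self (A : BallSpace X) : hd A A = 0 := hausdorffDist_self_zero

omit [IsUltrametricDist X] in
lemma hd_nonneg (A B : BallSpace X) : 0 ≤ hd A B := hausdorffDist_nonneg

omit [IsUltrametricDist X] in
lemma dist_le_dm {A : BallSpace X} {a b : X} (ha : a ∈ A.1) (hb : b ∈ A.1) : dist a b ≤ dm A :=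
  dist_le_diam_of_mem A.bounded ha hb

/-- a point outside a ball -/
lemma dist_le_of_notMem {A B : BallSpace X} {a b : X} (ha : a ∈ A.1) (hb : b ∈ B.1)
    (hbA : b ∉ A.1) : dist a b ≤ hd A B := by
  obtain ⟨r, hr, hA⟩ := A.radius
  have h1 : ∀ a' ∈ A.1, r < dist b a' := by
    intro a' ha'
    rw [hA a' ha', mem_closedBall, not_le] at hbA
    exact hbA
  have h2 : dist b a ≤ infDist b A.1 := by
    rw [le_infDist A.nonempty]
    intro a' ha'
    have h3 : dist a' a ≤ r := by
      rw [hA a ha] at ha'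
      exact ha'
    exact (dist_triangle_max b a' a).trans (max_le le_rfl (h3.trans (h1 a' ha').le))
  rw [dist_comm, hd_comm]
  exact h2.trans (infDist_le_hausdorffDist_of_mem hb (fin B A))

lemma dist_le_hd {A B : BallSpace X} (hAB : A ≠ B) {a b : X} (ha : a ∈ A.1) (hb : b ∈ B.1) :
    dist a b ≤ hd A B := by
  by_cases h1 : b ∈ A.1
  swap
  · exact dist_le_of_notMem ha hb h1
  by_cases h2 : a ∈ B.1
  swap
  · rw [dist_comm, hd_comm]
    exact dist_le_of_notMem hb ha h2
  have h3 : ∃ x, (x ∈ B.1 ∧ x ∉ A.1) ∨ (x ∈ A.1 ∧ x ∉ B.1) := by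
    by_contra hcon
    push Not at hcon
    apply hAB
    apply Subtype.ext
    ext x
    exact ⟨(hcon x).2, (hcon x).1⟩
  obtain ⟨x, ⟨hx1, hx2⟩ | ⟨hx1, hx2⟩⟩ := h3
  · refine le_trans ?_ (dist_le_of_notMem ha hx1 hx2)
    obtain ⟨r, hr, hA⟩ := A.radius
    have h4 : dist b a ≤ r := by rw [hA a ha] at h1; exact h1
    have h5 : r < dist x a := by
      rw [hA a ha, mem_closedBall, not_le] at hx2
      exact hx2
    rw [dist_comm a b, dist_comm a x]
    exact h4.trans h5.le
  · rw [hd_comm]
    refine le_trans ?_ (dist_le_of_notMem hb hx1 hx2)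
    obtain ⟨r, hr, hB⟩ := B.radius
    have h4 : dist a b ≤ r := by rw [hB b hb] at h2; exact h2
    have h5 : r < dist x b := by
      rw [hB b hb, mem_closedBall, not_le] at hx2
      exact hx2
    rw [dist_comm b x]
    exact h4.trans h5.le

omit [IsUltrametricDist X] in
lemma dm_le {A : BallSpace X} {C : ℝ} (h : ∀ a ∈ A.1, ∀ b ∈ A.1, dist a b ≤ C) : dm A ≤ C :=
  diam_le_of_forall_dist_le_of_nonempty A.nonempty h

lemma hd_le {A B : BallSpace X} {a b : X} (ha : a ∈ A.1) (hb : b ∈ B.1) :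
    hd A B ≤ max (dist a b) (max (dm A) (dm B)) := by
  refine hausdorffDist_le_of_mem_dist (le_max_of_le_left dist_nonneg) ?_ ?_
  · intro x hx
    exact ⟨b, hb, (dist_triangle_max x a b).trans (max_le
      (le_max_of_le_right (le_max_of_le_left (dist_le_dm hx ha))) (le_max_left _ _))⟩
  · intro x hx
    refine ⟨a, ha, (dist_triangle_max x b a).trans (max_le
      (le_max_of_le_right (le_max_of_le_right (dist_le_dm hx hb))) ?_)⟩
    rw [dist_comm]
    exact le_max_left _ _

lemma dm_le_hd {A B : BallSpace X} (h : B ≠ A) : dm A ≤ hd A B := by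
  obtain ⟨b, hb⟩ := B.nonempty
  refine dm_le fun a ha a' ha' => (dist_triangle_max a b a').trans (max_le ?_ ?_)
  · exact dist_le_hd (Ne.symm h) ha hb
  · rw [dist_comm]; exact dist_le_hd (Ne.symm h) ha' hb

lemma hd_ultra (A B C : BallSpace X) : hd A C ≤ max (hd A B) (hd B C) := by
  by_cases h1 : A = C
  · subst h1; rw [hd_self]; exact le_max_of_le_left (hd_nonneg _ _)
  by_cases h2 : A = B
  · subst h2; exact le_max_right _ _
  by_cases h3 : B = C
  · subst h3; exact le_max_left _ _
  obtain ⟨a, ha⟩ := A.nonempty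
  obtain ⟨b, hb⟩ := B.nonempty
  obtain ⟨c, hc⟩ := C.nonempty
  refine (hd_le ha hc).trans (max_le ?_ (max_le ?_ ?_))
  · exact (dist_triangle_max a b c).trans (max_le_max (dist_le_hd h2 ha hb) (dist_le_hd h3 hb hc))
  · exact le_max_of_le_left (dm_le_hd (Ne.symm h2))
  · exact le_max_of_le_right ((dm_le_hd h3).trans (hd_comm C B).le)

lemma dm_bl_le (a : X) {r : ℝ} (hr : 0 < r) : dm (bl a hr) ≤ r := by
  refine dm_le fun x hx y hy => (dist_triangle_max x a y).trans (max_le hx ?_)
  rw [dist_comm]; exact hy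

lemma exists_sub {A : BallSpace X} (h : 0 < dm A) : ∃ B, B ≠ A ∧ hd A B = dm A := by
  have h1 : ∃ a ∈ A.1, ∃ b ∈ A.1, a ≠ b := by
    by_contra hcon
    push Not at hcon
    have : dm A ≤ 0 := dm_le fun a ha b hb => by rw [hcon a ha b hb, dist_self]
    linarith
  obtain ⟨a, ha, b, hb, hab⟩ := h1
  have hd0 : 0 < dist a b := dist_pos.2 hab
  have hr : 0 < dist a b / 2 := by linarith
  obtain ⟨r, hr0, hA⟩ := A.radius
  have hbr : dist b a ≤ r := by rw [hA a ha] at hb; exact hb
  have hsub : (bl a hr).1 ⊆ A.1 := by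
    rw [hA a ha]
    refine closedBall_subset_closedBall ?_
    rw [dist_comm] at hbr
    linarith
  have hne : bl a hr ≠ A := by
    intro he
    rw [← he] at hb
    have h2 : dist b a ≤ dist a b / 2 := hb
    rw [dist_comm] at h2
    linarith
  refine ⟨bl a hr, hne, le_antisymm ?_ (dm_le_hd hne)⟩
  refine (hd_le ha (mem_closedBall_self hr.le : a ∈ (bl a hr).1)).trans ?_
  rw [dist_self]
  exact max_le h.le (max_le le_rfl (diam_mono hsub A.bounded))

lemma exists_companion {A C : BallSpace X} (hC : C ≠ A) (hA : dm A = 0)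
    (hmin : ∀ Z, Z ≠ A → hd A C ≤ hd A Z) :
    ∃ W, W ≠ A ∧ hd A W = hd A C ∧ dm W = hd A C ∧ 0 < dm W := by
  obtain ⟨a, ha⟩ := A.nonempty
  have hA1 : ∀ x ∈ A.1, x = a := by
    intro x hx
    have := dist_le_dm hx ha
    rw [hA] at this
    exact dist_le_zero.1 this
  obtain ⟨c, hc, hca⟩ : ∃ c ∈ C.1, c ≠ a := by
    by_contra hcon
    push Not at hcon
    apply hC
    apply Subtype.ext
    ext x
    constructor
    · intro hx; rw [hcon x hx]; exact ha
    · intro hx
      obtain ⟨c, hc⟩ := C.nonempty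
      rw [hA1 x hx, ← hcon c hc]; exact hc
  have hpos : 0 < dist a c := dist_pos.2 (Ne.symm hca)
  have h1 : dist a c ≤ hd A C := dist_le_hd (Ne.symm hC) ha hc
  have hcW : c ∈ (bl a hpos).1 := by
    change dist c a ≤ dist a c
    rw [dist_comm]
  have hWA : bl a hpos ≠ A := by
    intro he
    rw [he] at hcW
    exact hca (hA1 c hcW)
  have h2 : hd A (bl a hpos) ≤ dist a c := by
    refine (hd_le ha (mem_closedBall_self hpos.le : a ∈ (bl a hpos).1)).trans ?_
    rw [dist_self, hA]
    exact max_le hpos.le (max_le hpos.le (dm_bl_le a hpos))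
  have h3 := hmin _ hWA
  have h4 : hd A C = dist a c := le_antisymm (h3.trans h2) h1
  have h5 : dm (bl a hpos) = dist a c :=
    le_antisymm (dm_bl_le a hpos) (dist_le_dm (mem_closedBall_self hpos.le) hcW)
  refine ⟨bl a hpos, hWA, le_antisymm (h2.trans h4.ge) h3, by rw [h5, h4], by rw [h5]; exact hpos⟩

lemma hd_ne_dm {A B : BallSpace X} (hAB : A ≠ B) (h : dm A = dm B) : hd A B ≠ dm A := by
  intro he
  have h3 : ∃ x, (x ∈ B.1 ∧ x ∉ A.1) ∨ (x ∈ A.1 ∧ x ∉ B.1) := by
    by_contra hcon
    push Not at hcon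
    apply hAB
    apply Subtype.ext
    ext x
    exact ⟨(hcon x).2, (hcon x).1⟩
  have key : ∀ {A B : BallSpace X} {x : X}, x ∈ B.1 → x ∉ A.1 → dm A < hd A B := by
    intro A B x hx1 hx2
    obtain ⟨a, ha⟩ := A.nonempty
    obtain ⟨r, hr, hA⟩ := A.radius
    have h4 : dm A ≤ r := by
      refine dm_le fun y hy z hz => ?_
      rw [hA z hz] at hy
      exact hy
    have h5 : r < dist x a := by
      rw [hA a ha, mem_closedBall, not_le] at hx2
      exact hx2
    refine h4.trans_lt (h5.trans_le ?_)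
    rw [dist_comm]
    exact dist_le_of_notMem ha hx1 hx2
  obtain ⟨x, ⟨hx1, hx2⟩ | ⟨hx1, hx2⟩⟩ := h3
  · exact absurd he (key hx1 hx2).ne'
  · have := key hx1 hx2
    rw [hd_comm, he, h] at this
    exact lt_irrefl _ this

theorem dd : DD (hd : BallSpace X → BallSpace X → ℝ) dm where
  self := hd_self
  symm := hd_comm
  ultra := hd_ultra
  nonneg := fun _ => diam_nonneg
  le := fun _ _ h => dm_le_hd h
  att := fun _ h => exists_sub h
  comp := fun _ _ hC hA hmin => exists_companion hC hA hmin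
  uniq := fun _ _ hAB _ h => hd_ne_dm hAB h

end

end Pool.Agent.Q151.Ball
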